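import Pool.Agent.Helper12_Mader.Defs

set_option autoImplicit false

namespace Pool.Agent.Helper12_Mader

open Finset

/-- Exponential moment of the number of satisfied coordinates. -/
theorem sum_pow_good {ι T : Type} [Fintype ι] [DecidableEq ι] [Fintype T] [DecidableEq T]
    (κ : T → ι) (hκ : Function.Injective κ) (τ : T → Bool) :
    ∑ ω : ι → Bool, 3 ^ ((univ.filter fun e : T => ω (κ e) = τ e).card)
      = 2 ^ (Fintype.card ι) * 2 ^ (Fintype.card T) := by
  classical
  have h1 : ∀ ω : ι → Bool, 3 ^ ((univ.filter fun e : T => ω (κ e) = τ e).card)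
      = ∏ c : ι, ∏ e ∈ univ.filter (fun e : T => κ e = c), (if ω c = τ e then 3 else 1) := by
    intro ω
    have h2 : ∏ c : ι, ∏ e ∈ univ.filter (fun e : T => κ e = c), (if ω c = τ e then 3 else 1)
        = ∏ c : ι, ∏ e ∈ univ.filter (fun e : T => κ e = c), (if ω (κ e) = τ e then 3 else 1) := by
      refine Finset.prod_congr rfl fun c _ => Finset.prod_congr rfl fun e he => ?_
      rw [(Finset.mem_filter.1 he).2]
    rw [h2, Finset.prod_fiberwise_of_maps_to (fun _ _ => mem_univ _)]
    rw [Finset.prod_ite]
    simp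
  simp_rw [h1]
  rw [← Fintype.prod_sum (fun (c : ι) (b : Bool) =>
    ∏ e ∈ univ.filter (fun e : T => κ e = c), (if b = τ e then 3 else 1))]
  have h3 : ∀ c : ι, ∑ b : Bool, ∏ e ∈ univ.filter (fun e : T => κ e = c),
      (if b = τ e then 3 else 1) = 2 * 2 ^ ((univ.filter (fun e : T => κ e = c)).card) := by
    intro c
    by_cases hc : ∃ e, κ e = c
    · obtain ⟨e, rfl⟩ := hc
      have : univ.filter (fun e' : T => κ e' = κ e) = {e} := by
        ext e'; simp [hκ.eq_iff]
      rw [this]
      simp only [prod_singleton, card_singleton, Fintype.sum_bool]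
      cases τ e <;> simp
    · have : univ.filter (fun e' : T => κ e' = c) = ∅ := by
        ext e'; simp only [mem_filter, mem_univ, true_and, notMem_empty, iff_false]
        exact fun h => hc ⟨e', h⟩
      rw [this]
      simp
  simp_rw [h3]
  rw [Finset.prod_mul_distrib, Finset.prod_const, Finset.card_univ, Finset.prod_pow_eq_pow_sum]
  congr 2
  have := Finset.card_eq_sum_card_fiberwise (f := κ) (s := (univ : Finset T))
    (t := (univ : Finset ι)) (fun _ _ => mem_univ _)
  rw [Finset.card_univ] at this
  rw [this]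

/-- Markov bound. -/
theorem card_good_mul_le {ι T : Type} [Fintype ι] [DecidableEq ι] [Fintype T] [DecidableEq T]
    (κ : T → ι) (hκ : Function.Injective κ) (τ : T → Bool) (r : ℕ) :
    (univ.filter fun ω : ι → Bool => r ≤ (univ.filter fun e : T => ω (κ e) = τ e).card).card
      * 3 ^ r ≤ 2 ^ (Fintype.card ι) * 2 ^ (Fintype.card T) := by
  classical
  rw [← sum_pow_good κ hκ τ]
  calc _ = ∑ ω ∈ univ.filter fun ω : ι → Bool =>
          r ≤ (univ.filter fun e : T => ω (κ e) = τ e).card, 3 ^ r := by
        rw [Finset.sum_const, smul_eq_mul]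
    _ ≤ ∑ ω ∈ univ.filter fun ω : ι → Bool =>
          r ≤ (univ.filter fun e : T => ω (κ e) = τ e).card,
          3 ^ ((univ.filter fun e : T => ω (κ e) = τ e).card) := by
        refine Finset.sum_le_sum fun ω hω => ?_
        exact Nat.pow_le_pow_right (by norm_num) (Finset.mem_filter.1 hω).2
    _ ≤ _ := Finset.sum_le_sum_of_subset (Finset.filter_subset _ _)

end Pool.Agent.Helper12_Mader
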