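import Mathlib

set_option autoImplicit false

/-! Basic notions on digraphs used for `MP_ab2d80_co`: acyclic sets, dichromatic number,
subdivisions. -/

namespace Pool.Agent.Helper12_Mader

/-- `X` is an acyclic vertex set of `D`: the subdigraph induced by `X` has no closed directed walk
(equivalently, no directed cycle; a digon is a directed cycle of length two). -/
def IsAcyclicSet {V : Type} (D : Digraph V) (X : Set V) : Prop :=
  ∀ v, ¬ Relation.TransGen (fun a b => a ∈ X ∧ b ∈ X ∧ D.Adj a b) v v

/-- `V(D)` can be partitioned into `q` (possibly empty) acyclic sets. -/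
def Dicolorable {V : Type} (D : Digraph V) (q : ℕ) : Prop :=
  ∃ c : V → Fin q, ∀ i, IsAcyclicSet D {v | c v = i}

/-- The dichromatic number: the least number of acyclic sets partitioning `V(D)`. -/
noncomputable def dichromaticNumber {V : Type} (D : Digraph V) : ℕ :=
  sInf {q | Dicolorable D q}

/-- `D` contains a subdivision of `F`: there are an injective map `φ` of the vertices of `F` into
the vertices of `D` (branch vertices) and, for every arc `(u, v)` of `F`, a directed path
`p u v 0, p u v 1, …, p u v (ℓ u v)` of `D` of length `ℓ u v ≥ 1` from `φ u` to `φ v`; no internal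
vertex of such a path is a branch vertex, and all internal vertices (of the same path or of two
different paths) are pairwise distinct. -/
def HasSubdivision {V W : Type} (F : Digraph V) (D : Digraph W) : Prop :=
  ∃ (φ : V → W) (ℓ : V → V → ℕ) (p : V → V → ℕ → W), Function.Injective φ ∧
    ∀ u v, F.Adj u v →
      1 ≤ ℓ u v ∧ p u v 0 = φ u ∧ p u v (ℓ u v) = φ v ∧
      (∀ i, i < ℓ u v → D.Adj (p u v i) (p u v (i + 1))) ∧
      (∀ i, 0 < i → i < ℓ u v → ∀ w, p u v i ≠ φ w) ∧
      (∀ u' v', F.Adj u' v' → ∀ i j, 0 < i → i < ℓ u v → 0 < j → j < ℓ u' v' →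
        p u v i = p u' v' j → u = u' ∧ v = v' ∧ i = j)

section basic
variable {V : Type}

theorem dicolorable_card [Fintype V] (D : Digraph V) (hD : ∀ v, ¬ D.Adj v v) :
    Dicolorable D (Fintype.card V) := by
  classical
  refine ⟨Fintype.equivFin V, fun i v h => ?_⟩
  rcases Relation.TransGen.head'_iff.1 h with ⟨b, ⟨ha, hb, hab⟩, -⟩
  have ha' : Fintype.equivFin V v = i := ha
  have hb' : Fintype.equivFin V b = i := hb
  have : v = b := (Fintype.equivFin V).injective (ha'.trans hb'.symm)
  subst this
  exact hD _ hab

theorem le_dichromaticNumber [Fintype V] (D : Digraph V) (hD : ∀ v, ¬ D.Adj v v) (t : ℕ)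
    (h : ∀ q, Dicolorable D q → t ≤ q) : t ≤ dichromaticNumber D :=
  le_csInf ⟨_, dicolorable_card D hD⟩ h

/-- A fibre of a dicolouring of large size gives an acyclic finset. -/
theorem exists_acyclic_finset [Fintype V] (D : Digraph V) (q s : ℕ)
    (hq : Dicolorable D q) (hcard : q * s < Fintype.card V) :
    ∃ X : Finset V, s < X.card ∧ IsAcyclicSet D (X : Set V) := by
  classical
  obtain ⟨c, hc⟩ := hq
  have : ∃ i ∈ (Finset.univ : Finset (Fin q)),
      s < ((Finset.univ : Finset V).filter (fun v => c v = i)).card := by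
    apply Finset.exists_lt_card_fiber_of_mul_lt_card_of_maps_to (s := Finset.univ)
      (t := Finset.univ) (f := c) (n := s)
    · intro a _; exact Finset.mem_univ _
    · simpa using hcard
  obtain ⟨i, -, hi⟩ := this
  refine ⟨_, hi, ?_⟩
  have h2 := hc i
  simpa using h2

theorem IsAcyclicSet.mono {D : Digraph V} {X Y : Set V} (h : IsAcyclicSet D Y) (hXY : X ⊆ Y) :
    IsAcyclicSet D X := by
  intro v hv
  exact h v (Relation.TransGen.mono (fun a b hab => ⟨hXY hab.1, hXY hab.2.1, hab.2.2⟩) v v hv)

/-- In a tournament an acyclic finset of size `s` carries a transitive tournament. -/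
theorem exists_transitive (D : Digraph V) (htot : ∀ u v, u ≠ v → D.Adj u v ∨ D.Adj v u) :
    ∀ (s : ℕ) (X : Finset V), s ≤ X.card → IsAcyclicSet D (X : Set V) →
      ∃ ψ : Fin s → V, Function.Injective ψ ∧ (∀ i, ψ i ∈ X) ∧
        ∀ i j, i < j → D.Adj (ψ i) (ψ j) := by
  classical
  intro s
  induction s with
  | zero =>
    intro X _ _
    exact ⟨fun i => i.elim0, fun i => i.elim0, fun i => i.elim0, fun i => i.elim0⟩
  | succ s ih =>
    intro X hX hac
    have hne : X.Nonempty := Finset.card_pos.1 (by omega)
    -- a source of `X`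
    obtain ⟨x, hxX, hx⟩ : ∃ x ∈ X, ∀ y ∈ X, ¬ D.Adj y x := by
      by_contra hcon
      push Not at hcon
      -- well-foundedness of the ancestor relation on X
      let r : {y // y ∈ X} → {y // y ∈ X} → Prop :=
        Relation.TransGen (fun a b => D.Adj a.1 b.1)
      have hirr : ∀ a, ¬ r a a := by
        intro a ha
        refine hac a.1 ?_
        have hle : (fun a b : {y // y ∈ X} => D.Adj a.1 b.1) ≤
            (Function.onFun (fun a b => a ∈ (X : Set V) ∧ b ∈ (X : Set V) ∧ D.Adj a b)
              (Subtype.val : {y // y ∈ X} → V)) :=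
          fun a b hab => ⟨a.2, b.2, hab⟩
        exact Relation.TransGen.lift (Subtype.val : {y // y ∈ X} → V) hle a a ha
      have : IsTrans {y // y ∈ X} r := ⟨fun _ _ _ h1 h2 => Relation.TransGen.trans h1 h2⟩
      have : Std.Irrefl r := ⟨hirr⟩
      have hwf : WellFounded r := Finite.wellFounded_of_trans_of_irrefl r
      obtain ⟨m, -, hm⟩ := hwf.has_min Set.univ ⟨⟨hne.choose, hne.choose_spec⟩, trivial⟩
      obtain ⟨y, hyX, hy⟩ := hcon m.1 m.2
      exact hm ⟨y, hyX⟩ trivial (Relation.TransGen.single hy)
    obtain ⟨ψ, hinj, hmem, hadj⟩ := ih (X.erase x) (by rw [Finset.card_erase_of_mem hxX]; omega)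
      (hac.mono (by simp [Finset.coe_erase]))
    refine ⟨Fin.cons x ψ, ?_, ?_, ?_⟩
    · rw [Fin.cons_injective_iff]
      refine ⟨?_, hinj⟩
      rintro ⟨i, hi⟩
      have := hmem i
      rw [hi] at this
      simp at this
    · intro i
      refine Fin.cases ?_ ?_ i
      · simpa using hxX
      · intro j
        simpa using Finset.mem_of_mem_erase (hmem j)
    · intro i j
      refine Fin.cases ?_ ?_ i
      · refine Fin.cases ?_ ?_ j
        · intro h; exact absurd h (lt_irrefl _)
        · intro j _
          simp only [Fin.cons_zero, Fin.cons_succ]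
          have h1 : ψ j ∈ X := Finset.mem_of_mem_erase (hmem j)
          have h2 : ψ j ≠ x := Finset.ne_of_mem_erase (hmem j)
          rcases htot x (ψ j) h2.symm with h | h
          · exact h
          · exact absurd h (hx _ h1)
      · intro i
        refine Fin.cases ?_ ?_ j
        · intro h; exact absurd h (by simp)
        · intro j h
          simp only [Fin.cons_succ]
          exact hadj i j (by simpa using h)

end basic

end Pool.Agent.Helper12_Mader
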