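import Pool.Agent.Helper12_Mader.Tour

set_option autoImplicit false

namespace Pool.Agent.Helper12_Mader

open Finset

/-- Complete symmetric digraph. -/
def completeDigraph (t : ℕ) : Digraph (Fin t) where
  Adj u v := u ≠ v

theorem card_le_of_complete {k t : ℕ} (F : Digraph (Fin k))
    (H : ∀ (n : ℕ) (D : Digraph (Fin n)), (∀ v, ¬ D.Adj v v) → t ≤ dichromaticNumber D →
      HasSubdivision F D) : k ≤ t := by
  have h1 : t ≤ dichromaticNumber (completeDigraph t) := by
    apply le_dichromaticNumber
    · intro v h; exact h rfl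
    · rintro q ⟨c, hc⟩
      have hinj : Function.Injective c := by
        intro u v huv
        by_contra hne
        refine hc (c u) u ?_
        refine Relation.TransGen.tail (Relation.TransGen.single (b := v) ⟨rfl, ?_, hne⟩)
          ⟨?_, rfl, fun h => hne h.symm⟩
        · exact huv.symm
        · exact huv.symm
      simpa using Fintype.card_le_of_injective c hinj
  obtain ⟨φ, ℓ, p, hφ, -⟩ := H t (completeDigraph t) (fun v h => h rfl) h1
  simpa using Fintype.card_le_of_injective φ hφ

/-- If the tournament contains a subdivision then few arcs of `S` fail. -/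
theorem card_le_good_add {k n : ℕ} (F : Digraph (Fin k)) (S : Finset (Fin k × Fin k))
    (hS : ∀ e ∈ S, F.Adj e.1 e.2) (ω : Fin n × Fin n → Bool)
    (h : HasSubdivision F (tour ω)) :
    ∃ φ : Fin k → Fin n, Function.Injective φ ∧ S.card ≤ goodCount S φ ω + n := by
  classical
  obtain ⟨φ, ℓ, p, hφ, hp⟩ := h
  refine ⟨φ, hφ, ?_⟩
  have h1 : (S.filter fun e => (tour ω).Adj (φ e.1) (φ e.2)).card
      + (S.filter fun e => ¬ (tour ω).Adj (φ e.1) (φ e.2)).card = S.card :=
    Finset.card_filter_add_card_filter_not _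
  have h2 : (S.filter fun e => ¬ (tour ω).Adj (φ e.1) (φ e.2)).card ≤ n := by
    have hl : ∀ e ∈ S.filter fun e => ¬ (tour ω).Adj (φ e.1) (φ e.2), 1 < ℓ e.1 e.2 := by
      intro e he
      rw [mem_filter] at he
      obtain ⟨h1, h2, h3, h4, -, -⟩ := hp e.1 e.2 (hS e he.1)
      rcases lt_or_eq_of_le h1 with h5 | h5
      · exact h5
      · exfalso
        have h6 := h4 0 (by omega)
        rw [zero_add, h2] at h6
        rw [← h5] at h3
        rw [h3] at h6
        exact he.2 h6
    have h3 := Finset.card_le_card_of_injOn (s := S.filter fun e =>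
      ¬ (tour ω).Adj (φ e.1) (φ e.2)) (t := (univ : Finset (Fin n)))
      (fun e => p e.1 e.2 1) (fun e _ => mem_univ _) (by
        rintro ⟨u, v⟩ he ⟨u', v'⟩ he' heq
        have he1 := hl _ (Finset.mem_coe.1 he)
        have he2 := hl _ (Finset.mem_coe.1 he')
        rw [Finset.mem_coe, mem_filter] at he he'
        obtain ⟨-, -, -, -, -, h6⟩ := hp u v (hS _ he.1)
        obtain ⟨h7, h8, -⟩ := h6 u' v' (hS _ he'.1) 1 1 (by norm_num) he1 (by norm_num) he2 heq
        rw [h7, h8])
    simpa using h3
  unfold goodCount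
  omega

/-- The main bound in natural numbers. -/
theorem arcs_lt (k t : ℕ) (F : Digraph (Fin k)) (hF : ∀ v, ¬ F.Adj v v)
    (H : ∀ (n : ℕ) (D : Digraph (Fin n)), (∀ v, ¬ D.Adj v v) → t ≤ dichromaticNumber D →
      HasSubdivision F D) (ht : 2 ≤ t) :
    {e : Fin k × Fin k | F.Adj e.1 e.2}.ncard < 208 * (t * Nat.clog 2 t) := by
  classical
  have hkt : k ≤ t := card_le_of_complete F H
  set A : Finset (Fin k × Fin k) := univ.filter fun e => F.Adj e.1 e.2 with hA
  have hAn : {e : Fin k × Fin k | F.Adj e.1 e.2}.ncard = A.card := by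
    rw [← Set.ncard_coe_finset]; congr 1; ext e; simp [hA]
  rw [hAn]
  by_contra hcon
  push Not at hcon
  set S : Finset (Fin k × Fin k) := univ.filter fun e =>
    F.Adj e.1 e.2 ∧ (e.1 < e.2 ∨ ¬ F.Adj e.2 e.1) with hS
  have hSd : ∀ e ∈ S, e.1 ≠ e.2 := by
    intro e he h
    simp only [hS, mem_filter, mem_univ, true_and] at he
    rw [h] at he
    exact hF _ he.1
  have hSa : ∀ u v, (u, v) ∈ S → (v, u) ∉ S := by
    intro u v h1 h2
    simp only [hS, mem_filter, mem_univ, true_and] at h1 h2
    rcases h1 with ⟨h3, h4 | h4⟩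
    · rcases h2 with ⟨h5, h6 | h6⟩
      · exact lt_asymm h4 h6
      · exact h6 h3
    · exact h4 h2.1
  have hSA : A.card ≤ 2 * S.card := by
    have h1 : A ⊆ S ∪ S.image Prod.swap := by
      intro e he
      simp only [hA, mem_filter, mem_univ, true_and] at he
      rw [mem_union, mem_image]
      by_cases h : e.1 < e.2 ∨ ¬ F.Adj e.2 e.1
      · left; simp only [hS, mem_filter, mem_univ, true_and]; exact ⟨he, h⟩
      · right
        push Not at h
        refine ⟨(e.2, e.1), ?_, by simp⟩
        simp only [hS, mem_filter, mem_univ, true_and]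
        refine ⟨h.2, Or.inl ?_⟩
        exact lt_of_le_of_ne h.1 (fun h' => hF _ (h' ▸ he))
    have h2 := Finset.card_le_card h1
    have h3 := Finset.card_union_le S (S.image Prod.swap)
    have h4 : (S.image Prod.swap).card ≤ S.card := Finset.card_image_le
    omega
  set n := A.card / 16 with hn
  set lam := Nat.clog 2 t with hlam
  have hlam1 : 1 ≤ lam := Nat.clog_pos (by norm_num) ht
  set L := Nat.clog 2 n with hL
  have hAk : A.card ≤ k * k := by
    have := Finset.card_le_univ A
    simpa using this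
  have hnt : n ≤ t * t := by
    calc n ≤ A.card := Nat.div_le_self _ _
      _ ≤ k * k := hAk
      _ ≤ t * t := Nat.mul_le_mul hkt hkt
  have hLl : L ≤ 2 * lam := by
    apply Nat.clog_le_of_le_pow
    calc n ≤ t * t := hnt
      _ ≤ 2 ^ lam * 2 ^ lam :=
        Nat.mul_le_mul (Nat.le_pow_clog (by norm_num) _) (Nat.le_pow_clog (by norm_num) _)
      _ = 2 ^ (2 * lam) := by rw [← pow_add]; congr 1; ring
  have hn12 : 12 * (t * lam) ≤ n := by
    rw [hn, Nat.le_div_iff_mul_le (by norm_num)]
    omega
  have hnL : n ≤ 2 ^ L := Nat.le_pow_clog (by norm_num) _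
  have h8 : 8 * n ≤ S.card := by omega
  have htl : t ≤ t * lam := Nat.le_mul_of_pos_right _ hlam1
  have hk : L * k + 1 ≤ 3 * n := by
    have h1 : L * k ≤ 2 * lam * t := Nat.mul_le_mul hLl hkt
    have h2 : 2 * lam * t = 2 * (t * lam) := by ring
    omega
  obtain ⟨ω, hω1, hω2⟩ := exists_tour k n L S hSd hSa h8 hnL hk
  have hdic : t ≤ dichromaticNumber (tour ω) := by
    apply le_dichromaticNumber _ (tour_irrefl ω)
    intro q hq
    by_contra hlt
    push Not at hlt
    have h1 : q * (4 * L + 4) < n := by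
      have h2 : (q + 1) * (4 * L + 4) ≤ t * (8 * lam + 4) :=
        Nat.mul_le_mul (by omega) (by omega)
      have h3 : t * (8 * lam + 4) ≤ 12 * (t * lam) := by
        have : t * (8 * lam + 4) = 8 * (t * lam) + 4 * t := by ring
        omega
      have h4 : (q + 1) * (4 * L + 4) = q * (4 * L + 4) + (4 * L + 4) := by ring
      omega
    obtain ⟨X, hX, hac⟩ := exists_acyclic_finset (tour ω) q (4 * L + 4) hq (by simpa using h1)
    obtain ⟨ψ, hψ, -, hadj⟩ := exists_transitive (tour ω) (tour_total ω) (4 * L + 5) X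
      (by omega) hac
    exact hω2 ψ hψ hadj
  obtain ⟨φ, hφ, hle⟩ := card_le_good_add F S (fun e he => by
    simp only [hS, mem_filter, mem_univ, true_and] at he
    exact he.1) ω (H n (tour ω) (tour_irrefl ω) hdic)
  have := hω1 φ hφ
  omega

/-- Main theorem. -/
theorem arcs_le (k t : ℕ) (F : Digraph (Fin k)) (hF : ∀ v, ¬ F.Adj v v)
    (H : ∀ (n : ℕ) (D : Digraph (Fin n)), (∀ v, ¬ D.Adj v v) → t ≤ dichromaticNumber D →
      HasSubdivision F D) :
    ({e : Fin k × Fin k | F.Adj e.1 e.2}.ncard : ℝ) ≤ 601 * t * Real.log t := by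
  have hkt : k ≤ t := card_le_of_complete F H
  rcases Nat.lt_or_ge t 2 with ht | ht
  · have h1 : {e : Fin k × Fin k | F.Adj e.1 e.2} = ∅ := by
      ext ⟨u, v⟩
      simp only [Set.mem_ofPred_eq, Set.mem_empty_iff_false, iff_false]
      intro h
      have : u = v := Fin.ext (by omega)
      exact hF _ (this ▸ h)
    rw [h1, Set.ncard_empty]
    have h0 : 0 ≤ Real.log (t : ℝ) := Real.log_natCast_nonneg t
    simp only [Nat.cast_zero]
    positivity
  · have h1 := arcs_lt k t F hF H ht
    have h2 : (Nat.clog 2 t : ℝ) ≤ 2 * (Real.log t / Real.log 2) := by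
      have h3 : Nat.clog 2 t ≤ Nat.log 2 t + 1 := by
        apply Nat.clog_le_of_le_pow
        exact (Nat.lt_pow_succ_log_self (by norm_num) t).le
      have h4 : (Nat.log 2 t : ℝ) ≤ Real.log t / Real.log 2 := by
        rw [Real.log_div_log]
        exact_mod_cast Real.natLog_le_logb t 2
      have h5 : 1 ≤ Real.log t / Real.log 2 := by
        rw [le_div_iff₀ (Real.log_pos (by norm_num)), one_mul]
        exact Real.log_le_log (by norm_num) (by exact_mod_cast ht)
      have h6 : (Nat.clog 2 t : ℝ) ≤ (Nat.log 2 t : ℝ) + 1 := by exact_mod_cast h3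
      linarith
    have h7 : ({e : Fin k × Fin k | F.Adj e.1 e.2}.ncard : ℝ) ≤ 208 * (t * Nat.clog 2 t) := by
      exact_mod_cast h1.le
    have hlog2 : (0.6931471803 : ℝ) < Real.log 2 := Real.log_two_gt_d9
    have hlogt : 0 < Real.log (t : ℝ) := Real.log_pos (by exact_mod_cast ht)
    have ht0 : (0 : ℝ) < t := by positivity
    calc ({e : Fin k × Fin k | F.Adj e.1 e.2}.ncard : ℝ) ≤ 208 * (t * Nat.clog 2 t) := h7
      _ ≤ 208 * (t * (2 * (Real.log t / Real.log 2))) := by gcongr
      _ = (416 / Real.log 2) * (t * Real.log t) := by ring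
      _ ≤ 601 * (t * Real.log t) := by
          gcongr
          rw [div_le_iff₀ (by linarith)]
          nlinarith
      _ = _ := by ring

end Pool.Agent.Helper12_Mader
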