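import Pool.Agent.Helper12_Mader.Defs

set_option autoImplicit false

namespace Pool.Agent.Helper12_Mader

open Finset

/-- General principle: in a subdivision, failing arcs and branch vertices use distinct vertices. -/
theorem fails_add_card_le {k n : ℕ} (F : Digraph (Fin k)) (D : Digraph (Fin n))
    (h : HasSubdivision F D) : ∃ φ : Fin k → Fin n, Function.Injective φ ∧
      ∀ S : Finset (Fin k × Fin k), (∀ e ∈ S, F.Adj e.1 e.2 ∧ ¬ D.Adj (φ e.1) (φ e.2)) →
        S.card + k ≤ n := by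
  classical
  obtain ⟨φ, ℓ, p, hφ, hp⟩ := h
  refine ⟨φ, hφ, fun S hS => ?_⟩
  have hl : ∀ e ∈ S, 1 < ℓ e.1 e.2 := by
    intro e he
    obtain ⟨hF, hD⟩ := hS e he
    obtain ⟨h1, h2, h3, h4, -, -⟩ := hp e.1 e.2 hF
    rcases lt_or_eq_of_le h1 with h5 | h5
    · exact h5
    · exfalso
      have h6 := h4 0 (by omega)
      rw [zero_add, h2] at h6
      rw [← h5] at h3
      rw [h3] at h6
      exact hD h6
  have h3 : (S.image fun e => p e.1 e.2 1).card = S.card := by
    apply Finset.card_image_of_injOn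
    rintro ⟨u, v⟩ he ⟨u', v'⟩ he' heq
    have he1 := hl _ (Finset.mem_coe.1 he)
    have he2 := hl _ (Finset.mem_coe.1 he')
    obtain ⟨-, -, -, -, -, h6⟩ := hp u v (hS _ he).1
    obtain ⟨h7, h8, -⟩ := h6 u' v' (hS _ he').1 1 1 (by norm_num) he1 (by norm_num) he2 heq
    rw [h7, h8]
  have h4 : ((univ : Finset (Fin k)).image φ).card = k := by
    rw [Finset.card_image_of_injective _ hφ]; simp
  have h5 : Disjoint (S.image fun e => p e.1 e.2 1) ((univ : Finset (Fin k)).image φ) := by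
    rw [Finset.disjoint_left]
    intro x hx hx'
    obtain ⟨e, he, rfl⟩ := mem_image.1 hx
    obtain ⟨w, -, hw⟩ := mem_image.1 hx'
    obtain ⟨-, -, -, -, h6, -⟩ := hp e.1 e.2 (hS _ he).1
    exact h6 1 (by norm_num) (hl e he) w hw.symm
  have h6 := Finset.card_le_univ ((S.image fun e => p e.1 e.2 1) ∪ (univ.image φ))
  rw [Finset.card_union_of_disjoint h5, h3, h4, Fintype.card_fin] at h6
  exact h6

/-- Host: symmetric digraph, a blow-up of the 5-cycle by complete symmetric digraphs. -/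
def pent (n : ℕ) : Digraph (Fin n) where
  Adj u v := u ≠ v ∧ ((u : ℕ) : ZMod 5) - (v : ℕ) ≠ 2 ∧ ((u : ℕ) : ZMod 5) - (v : ℕ) ≠ 3

theorem pent_symm {n : ℕ} {u v : Fin n} (h : (pent n).Adj u v) : (pent n).Adj v u := by
  obtain ⟨h1, h2, h3⟩ := h
  refine ⟨fun h => h1 h.symm, ?_, ?_⟩
  · intro h; apply h3
    have : ((u : ℕ) : ZMod 5) - (v : ℕ) = -(((v : ℕ) : ZMod 5) - (u : ℕ)) := by ring
    rw [this, h]; decide
  · intro h; apply h2
    have : ((u : ℕ) : ZMod 5) - (v : ℕ) = -(((v : ℕ) : ZMod 5) - (u : ℕ)) := by ring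
    rw [this, h]; decide

theorem pent_acyclic_card {n : ℕ} (X : Finset (Fin n)) (h : IsAcyclicSet (pent n) (X : Set (Fin n))) :
    X.card ≤ 2 := by
  classical
  by_contra hcon
  push Not at hcon
  obtain ⟨a, b, c, ha, hb, hc, hab, hac, hbc⟩ := Finset.two_lt_card_iff.1 hcon
  have key : ∀ u v : Fin n, u ∈ X → v ∈ X → u ≠ v →
      (((u : ℕ) : ZMod 5) - (v : ℕ) = 2 ∨ ((u : ℕ) : ZMod 5) - (v : ℕ) = 3) := by
    intro u v hu hv huv
    by_contra h'
    push Not at h'
    have hadj : (pent n).Adj u v := ⟨huv, h'.1, h'.2⟩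
    exact h u (Relation.TransGen.tail (Relation.TransGen.single ⟨hu, hv, hadj⟩)
      ⟨hv, hu, pent_symm hadj⟩)
  have h1 := key a b ha hb hab
  have h2 := key a c ha hc hac
  have h3 := key b c hb hc hbc
  generalize ((a : ℕ) : ZMod 5) = x at *
  generalize ((b : ℕ) : ZMod 5) = y at *
  generalize ((c : ℕ) : ZMod 5) = z at *
  clear key hcon ha hb hc hab hac hbc h
  revert x y z
  decide

theorem le_dichi_pent (t : ℕ) : t ≤ dichromaticNumber (pent (2 * t - 1)) := by
  apply le_dichromaticNumber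
  · intro v h; exact h.1 rfl
  · intro q hq
    by_contra hlt
    push Not at hlt
    obtain ⟨X, hX, hac⟩ := exists_acyclic_finset (pent (2 * t - 1)) q 2 hq (by simp; omega)
    have := pent_acyclic_card X hac
    omega

theorem card_class_le (n : ℕ) (i : ZMod 5) :
    ((univ : Finset (Fin n)).filter fun v : Fin n => (((v : ℕ) : ZMod 5)) = i).card
      ≤ (n + 4) / 5 := by
  have h1 : ((univ : Finset (Fin n)).filter fun v : Fin n => (((v : ℕ) : ZMod 5)) = i).card
      ≤ (range ((n + 4) / 5)).card := by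
    apply Finset.card_le_card_of_injOn (fun v : Fin n => (v : ℕ) / 5)
    · intro v _
      simp only [coe_range, Set.mem_Iio]
      have := v.2
      omega
    · intro a ha b hb h
      simp only [coe_filter, mem_univ, true_and, Set.mem_ofPred_eq] at ha hb
      have h2 : (a : ℕ) ≡ (b : ℕ) [MOD 5] := by
        rw [← ZMod.natCast_eq_natCast_iff, ha, hb]
      unfold Nat.ModEq at h2
      simp only at h
      apply Fin.ext
      omega
  simpa using h1

/-- Sparse pair theorem. -/
theorem sparse_pair (k t s : ℕ) (F : Digraph (Fin k))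
    (H : ∀ (n : ℕ) (D : Digraph (Fin n)), (∀ v, ¬ D.Adj v v) → t ≤ dichromaticNumber D →
      HasSubdivision F D) (hs : 2 * ((2 * t + 3) / 5) + 3 * (s - 1) < k) :
    ∃ A B : Finset (Fin k), Disjoint A B ∧ s ≤ A.card ∧ s ≤ B.card ∧
      {e : Fin k × Fin k | F.Adj e.1 e.2 ∧ ((e.1 ∈ A ∧ e.2 ∈ B) ∨ (e.1 ∈ B ∧ e.2 ∈ A))}.ncard + k
        ≤ 2 * t - 1 := by
  classical
  obtain ⟨φ, hφ, hfail⟩ := fails_add_card_le F (pent (2 * t - 1))
    (H _ _ (fun v h => h.1 rfl) (le_dichi_pent t))
  let g : Fin k → ZMod 5 := fun v => ((φ v : ℕ) : ZMod 5)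
  let cl : ZMod 5 → Finset (Fin k) := fun i => univ.filter fun v => g v = i
  have hcl : ∀ i, (cl i).card ≤ (2 * t + 3) / 5 := by
    intro i
    have h1 : (cl i).card ≤ ((univ : Finset (Fin (2 * t - 1))).filter
        fun v : Fin (2 * t - 1) => (((v : ℕ) : ZMod 5)) = i).card := by
      apply Finset.card_le_card_of_injOn φ
      · intro v hv
        simpa [cl, g] using hv
      · intro a _ b _ h; exact hφ h
    have h2 := card_class_le (2 * t - 1) i
    omega
  have hsum : ∑ i : ZMod 5, (cl i).card = k := by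
    have := Finset.card_eq_sum_card_fiberwise (f := g) (s := (univ : Finset (Fin k)))
      (t := (univ : Finset (ZMod 5))) (fun _ _ => mem_univ _)
    rw [Finset.card_univ, Fintype.card_fin] at this
    exact this.symm
  have hex : ∃ i : ZMod 5, s ≤ (cl i).card ∧ s ≤ (cl (i + 2)).card := by
    by_contra hcon
    push Not at hcon
    have h0 := hcon 0
    have h1 := hcon 1
    have h2 := hcon 2
    have h3 := hcon 3
    have h4 := hcon 4
    have e0 : (0 : ZMod 5) + 2 = 2 := by decide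
    have e1 : (1 : ZMod 5) + 2 = 3 := by decide
    have e2 : (2 : ZMod 5) + 2 = 4 := by decide
    have e3 : (3 : ZMod 5) + 2 = 0 := by decide
    have e4 : (4 : ZMod 5) + 2 = 1 := by decide
    rw [e0] at h0
    rw [e1] at h1
    rw [e2] at h2
    rw [e3] at h3
    rw [e4] at h4
    have hs5 : ∑ i : ZMod 5, (cl i).card
        = (cl 0).card + (cl 1).card + (cl 2).card + (cl 3).card + (cl 4).card := by
      have : (univ : Finset (ZMod 5)) = {0, 1, 2, 3, 4} := by decide
      rw [this, Finset.sum_insert (by decide), Finset.sum_insert (by decide),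
        Finset.sum_insert (by decide), Finset.sum_insert (by decide), Finset.sum_singleton]
      ring
    have c0 := hcl 0
    have c1 := hcl 1
    have c2 := hcl 2
    have c3 := hcl 3
    have c4 := hcl 4
    by_cases b0 : s ≤ (cl 0).card <;> by_cases b1 : s ≤ (cl 1).card <;>
    by_cases b2 : s ≤ (cl 2).card <;> by_cases b3 : s ≤ (cl 3).card <;>
    by_cases b4 : s ≤ (cl 4).card <;> omega
  obtain ⟨i, hi1, hi2⟩ := hex
  refine ⟨cl i, cl (i + 2), ?_, hi1, hi2, ?_⟩
  · rw [Finset.disjoint_left]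
    intro v h1 h2
    simp only [cl, mem_filter, mem_univ, true_and] at h1 h2
    rw [h1] at h2
    have : ∀ i : ZMod 5, i ≠ i + 2 := by decide
    exact this i h2
  · set S : Finset (Fin k × Fin k) := univ.filter fun e =>
      F.Adj e.1 e.2 ∧ ((e.1 ∈ cl i ∧ e.2 ∈ cl (i + 2)) ∨ (e.1 ∈ cl (i + 2) ∧ e.2 ∈ cl i)) with hS
    have h1 : {e : Fin k × Fin k | F.Adj e.1 e.2 ∧
        ((e.1 ∈ cl i ∧ e.2 ∈ cl (i + 2)) ∨ (e.1 ∈ cl (i + 2) ∧ e.2 ∈ cl i))}.ncard = S.card := by
      rw [← Set.ncard_coe_finset]; congr 1; ext e; simp [hS]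
    rw [h1]
    apply hfail
    intro e he
    simp only [hS, mem_filter, mem_univ, true_and] at he
    refine ⟨he.1, ?_⟩
    rintro ⟨-, h2, h3⟩
    rcases he.2 with ⟨h4, h5⟩ | ⟨h4, h5⟩
    · simp only [cl, g, mem_filter, mem_univ, true_and] at h4 h5
      apply h3
      rw [h4, h5]
      have : ∀ i : ZMod 5, i - (i + 2) = 3 := by decide
      exact this i
    · simp only [cl, g, mem_filter, mem_univ, true_and] at h4 h5
      apply h2
      rw [h4, h5]
      have : ∀ i : ZMod 5, (i + 2) - i = 2 := by decide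
      exact this i

end Pool.Agent.Helper12_Mader
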