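import Pool.Agent.Helper12_Mader.Count

set_option autoImplicit false

namespace Pool.Agent.Helper12_Mader

open Finset

/-- The tournament on `Fin n` coded by a table of bits. -/
def tour {n : ℕ} (ω : Fin n × Fin n → Bool) : Digraph (Fin n) where
  Adj i j := (i < j ∧ ω (i, j) = true) ∨ (j < i ∧ ω (j, i) = false)

theorem tour_irrefl {n : ℕ} (ω : Fin n × Fin n → Bool) (v : Fin n) : ¬ (tour ω).Adj v v := by
  rintro (⟨h, -⟩ | ⟨h, -⟩) <;> exact lt_irrefl _ h

/-- coordinate of a pair -/
def co {n : ℕ} (x y : Fin n) : Fin n × Fin n := if x < y then (x, y) else (y, x)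

theorem tour_adj_iff {n : ℕ} (ω : Fin n × Fin n → Bool) (x y : Fin n) (h : x ≠ y) :
    (tour ω).Adj x y ↔ ω (co x y) = decide (x < y) := by
  unfold tour co
  rcases lt_or_gt_of_ne h with h1 | h1
  · simp [h1, h1.not_gt]
  · simp [h1, h1.not_gt]

theorem tour_total {n : ℕ} (ω : Fin n × Fin n → Bool) (x y : Fin n) (h : x ≠ y) :
    (tour ω).Adj x y ∨ (tour ω).Adj y x := by
  unfold tour
  rcases lt_or_gt_of_ne h with h1 | h1
  · rcases Bool.eq_false_or_eq_true (ω (x, y)) with h2 | h2
    · left; left; exact ⟨h1, h2⟩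
    · right; right; exact ⟨h1, h2⟩
  · rcases Bool.eq_false_or_eq_true (ω (y, x)) with h2 | h2
    · right; left; exact ⟨h1, h2⟩
    · left; right; exact ⟨h1, h2⟩

theorem co_inj {n : ℕ} {x y x' y' : Fin n} (h : co x y = co x' y') :
    (x = x' ∧ y = y') ∨ (x = y' ∧ y = x') := by
  unfold co at h
  split_ifs at h <;> simp only [Prod.mk.injEq] at h <;> tauto

/-- Number of arcs of `S` mapped to arcs of the tournament. -/
noncomputable def goodCount {k n : ℕ} (S : Finset (Fin k × Fin k)) (φ : Fin k → Fin n)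
    (ω : Fin n × Fin n → Bool) : ℕ := by
  classical
  exact (S.filter fun e => (tour ω).Adj (φ e.1) (φ e.2)).card

theorem card_bad_mul_le {k n : ℕ} (S : Finset (Fin k × Fin k)) (hd : ∀ e ∈ S, e.1 ≠ e.2)
    (ha : ∀ u v, (u, v) ∈ S → (v, u) ∉ S) (φ : Fin k → Fin n) (hφ : Function.Injective φ)
    (r : ℕ) : (univ.filter fun ω => r ≤ goodCount S φ ω).card * 3 ^ r
      ≤ 2 ^ (n * n) * 2 ^ S.card := by
  classical
  have key := card_good_mul_le (T := S) (ι := Fin n × Fin n)
    (fun e => co (φ e.1.1) (φ e.1.2))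
    (by
      rintro ⟨⟨u, v⟩, he⟩ ⟨⟨u', v'⟩, he'⟩ h
      rcases co_inj h with ⟨h1, h2⟩ | ⟨h1, h2⟩
      · have h3 : u = u' := hφ h1
        have h4 : v = v' := hφ h2
        subst h3 h4; rfl
      · have h3 : u = v' := hφ h1
        have h4 : v = u' := hφ h2
        subst h3 h4
        exact absurd he' (ha _ _ he))
    (fun e => decide (φ e.1.1 < φ e.1.2)) r
  simp only [Fintype.card_prod, Fintype.card_fin, Fintype.card_coe] at key
  refine le_trans (Nat.mul_le_mul_right _ (le_of_eq ?_)) key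
  congr 1
  ext ω
  simp only [mem_filter, mem_univ, true_and]
  have : goodCount S φ ω = (univ.filter fun e : S =>
      ω (co (φ e.1.1) (φ e.1.2)) = decide (φ e.1.1 < φ e.1.2)).card := by
    unfold goodCount
    rw [← Finset.card_map (Function.Embedding.subtype (· ∈ S))]
    congr 1
    ext e
    simp only [mem_filter, mem_map, mem_univ, true_and, Function.Embedding.subtype_apply,
      Subtype.exists, exists_and_right, exists_eq_right]
    constructor
    · rintro ⟨he, hadj⟩
      exact ⟨he, (tour_adj_iff ω _ _ (fun h => hd e he (hφ h))).1 hadj⟩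
    · rintro ⟨he, hadj⟩
      exact ⟨he, (tour_adj_iff ω _ _ (fun h => hd e he (hφ h))).2 hadj⟩
  rw [this]

/-- Existence of a good tournament. -/
theorem exists_tour (k n L : ℕ) (S : Finset (Fin k × Fin k)) (hd : ∀ e ∈ S, e.1 ≠ e.2)
    (ha : ∀ u v, (u, v) ∈ S → (v, u) ∉ S) (h8 : 8 * n ≤ S.card) (hL : n ≤ 2 ^ L)
    (hk : L * k + 1 ≤ 3 * n) :
    ∃ ω : Fin n × Fin n → Bool,
      (∀ φ : Fin k → Fin n, Function.Injective φ → goodCount S φ ω + n < S.card) ∧
      (∀ ψ : Fin (4 * L + 5) → Fin n, Function.Injective ψ →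
        ¬ ∀ i j, i < j → (tour ω).Adj (ψ i) (ψ j)) := by
  classical
  by_contra hcon
  push Not at hcon
  set s := 4 * L + 5 with hs
  set S2 : Finset (Fin s × Fin s) := univ.filter fun e => e.1 < e.2 with hS2
  set c := S2.card with hc
  -- number of pairs
  have hc2 : c = s * (2 * (L + 1)) := by
    have h1 : 2 * c = s * (s - 1) := by
      have h2 : (univ.filter fun e : Fin s × Fin s => e.2 < e.1).card = c := by
        rw [hc, hS2]
        refine Finset.card_bij (fun e _ => (e.2, e.1)) ?_ ?_ ?_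
        · intro e he; simpa using he
        · rintro ⟨a, b⟩ _ ⟨a', b'⟩ _ h; simp only [Prod.mk.injEq] at h ⊢; tauto
        · rintro ⟨a, b⟩ hab; exact ⟨(b, a), by simpa using hab, rfl⟩
      have h3 : (univ.filter fun e : Fin s × Fin s => e.1 ≠ e.2).card = s * (s - 1) := by
        have := Finset.offDiag_card (univ : Finset (Fin s))
        rw [Finset.card_univ, Fintype.card_fin] at this
        have h4 : (univ : Finset (Fin s)).offDiag
            = univ.filter fun e : Fin s × Fin s => e.1 ≠ e.2 := by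
          ext e; simp
        rw [← h4, this, Nat.mul_sub_one]
      have h5 : (univ.filter fun e : Fin s × Fin s => e.1 ≠ e.2)
          = S2 ∪ (univ.filter fun e : Fin s × Fin s => e.2 < e.1) := by
        ext e
        simp only [hS2, mem_filter, mem_univ, true_and, mem_union, ne_eq]
        exact lt_or_lt_iff_ne.symm
      rw [h5, Finset.card_union_of_disjoint, h2] at h3
      · omega
      · rw [Finset.disjoint_filter]
        intro e _ h1 h2
        exact lt_asymm h1 h2
    have h6 : s * (s - 1) = 2 * (s * (2 * (L + 1))) := by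
      have : s - 1 = 2 * (2 * (L + 1)) := by omega
      rw [this]; ring
    omega
  -- the two bad families
  let B1 : (Fin k → Fin n) → Finset (Fin n × Fin n → Bool) := fun φ =>
    if Function.Injective φ then univ.filter fun ω => S.card - n ≤ goodCount S φ ω else ∅
  let B2 : (Fin s → Fin n) → Finset (Fin n × Fin n → Bool) := fun ψ =>
    if Function.Injective ψ then univ.filter fun ω => c ≤ goodCount S2 ψ ω else ∅
  have hB1 : ∀ φ, (B1 φ).card * 8 ^ n ≤ 2 ^ (n * n) := by
    intro φ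
    by_cases hφ : Function.Injective φ
    · simp only [B1, hφ, if_true]
      have h1 := card_bad_mul_le S hd ha φ hφ (S.card - n)
      obtain ⟨d, hd'⟩ : ∃ d, S.card = 8 * n + d := ⟨S.card - 8 * n, by omega⟩
      have h2 : S.card - n = 7 * n + d := by omega
      have h3 : 2 ^ S.card * 8 ^ n ≤ 3 ^ (S.card - n) := by
        rw [h2, hd', pow_add, pow_add, pow_mul, pow_mul]
        calc (2 ^ 8) ^ n * 2 ^ d * 8 ^ n = ((2 ^ 8 * 8) ^ n) * 2 ^ d := by
              rw [mul_pow]; ring
          _ ≤ ((3 ^ 7) ^ n) * 3 ^ d :=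
              Nat.mul_le_mul (Nat.pow_le_pow_left (by norm_num) _)
                (Nat.pow_le_pow_left (by norm_num) _)
      set X := (univ.filter fun ω => S.card - n ≤ goodCount S φ ω).card with hX
      have h4 : X * 8 ^ n * (2 ^ S.card) ≤ 2 ^ (n * n) * 2 ^ S.card := by
        calc X * 8 ^ n * 2 ^ S.card = X * (2 ^ S.card * 8 ^ n) := by ring
          _ ≤ X * 3 ^ (S.card - n) := Nat.mul_le_mul_left _ h3
          _ ≤ _ := h1
      exact Nat.le_of_mul_le_mul_right h4 (by positivity)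
    · simp [B1, hφ]
  have hB2 : ∀ ψ, (B2 ψ).card * 2 ^ ((L + 1) * s) ≤ 2 ^ (n * n) := by
    intro ψ
    by_cases hψ : Function.Injective ψ
    · simp only [B2, hψ, if_true]
      have h1 := card_bad_mul_le S2
        (by intro e he; exact ne_of_lt (by simpa [hS2] using he))
        (by intro u v huv hvu
            simp only [hS2, mem_filter, mem_univ, true_and] at huv hvu
            exact lt_asymm huv hvu) ψ hψ c
      have h3 : 2 ^ c * 2 ^ ((L + 1) * s) ≤ 3 ^ c := by
        rw [hc2, ← pow_add]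
        calc 2 ^ (s * (2 * (L + 1)) + (L + 1) * s) = (2 ^ 3) ^ (s * (L + 1)) := by
              rw [← pow_mul]; congr 1; ring
          _ ≤ (3 ^ 2) ^ (s * (L + 1)) := Nat.pow_le_pow_left (by norm_num) _
          _ = 3 ^ (s * (2 * (L + 1))) := by rw [← pow_mul]; congr 1; ring
      rw [← hc] at h1
      set X := (univ.filter fun ω => c ≤ goodCount S2 ψ ω).card with hX
      have h4 : X * 2 ^ ((L + 1) * s) * (2 ^ c) ≤ 2 ^ (n * n) * 2 ^ c := by
        calc X * 2 ^ ((L + 1) * s) * 2 ^ c = X * (2 ^ c * 2 ^ ((L + 1) * s)) := by ring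
          _ ≤ X * 3 ^ c := Nat.mul_le_mul_left _ h3
          _ ≤ _ := h1
      exact Nat.le_of_mul_le_mul_right h4 (by positivity)
    · simp [B2, hψ]
  -- union bound
  have hcover : (univ : Finset (Fin n × Fin n → Bool)) ⊆
      (univ.biUnion B1) ∪ (univ.biUnion B2) := by
    intro ω _
    rw [mem_union, mem_biUnion, mem_biUnion]
    by_cases h : ∀ φ : Fin k → Fin n, Function.Injective φ → goodCount S φ ω + n < S.card
    · right
      obtain ⟨ψ, hψ, hadj⟩ := hcon ω h
      refine ⟨ψ, mem_univ _, ?_⟩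
      simp only [B2, hψ, if_true, mem_filter, mem_univ, true_and]
      unfold goodCount
      rw [hc]
      refine Finset.card_le_card ?_
      intro e he
      rw [mem_filter]
      exact ⟨he, hadj _ _ (by simpa [hS2] using he)⟩
    · left
      push Not at h
      obtain ⟨φ, hφ, hle⟩ := h
      refine ⟨φ, mem_univ _, ?_⟩
      simp only [B1, hφ, if_true, mem_filter, mem_univ, true_and]
      omega
  have h1 : 2 ^ (n * n) ≤ (univ.biUnion B1).card + (univ.biUnion B2).card := by
    have h2 := Finset.card_le_card hcover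
    have h3 := Finset.card_union_le (univ.biUnion B1) (univ.biUnion B2)
    rw [Finset.card_univ, Fintype.card_fun, Fintype.card_bool, Fintype.card_prod,
      Fintype.card_fin] at h2
    omega
  have h2 : (univ.biUnion B1).card * 2 ≤ 2 ^ (n * n) := by
    have h3 : (univ.biUnion B1).card ≤ ∑ φ : Fin k → Fin n, (B1 φ).card :=
      Finset.card_biUnion_le
    have h4 : (∑ φ : Fin k → Fin n, (B1 φ).card) * 8 ^ n ≤ n ^ k * 2 ^ (n * n) := by
      rw [Finset.sum_mul]
      calc ∑ φ : Fin k → Fin n, (B1 φ).card * 8 ^ n ≤ ∑ _φ : Fin k → Fin n, 2 ^ (n * n) :=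
            Finset.sum_le_sum fun φ _ => hB1 φ
        _ = n ^ k * 2 ^ (n * n) := by
            rw [Finset.sum_const, Finset.card_univ, Fintype.card_fun, Fintype.card_fin,
              Fintype.card_fin, smul_eq_mul]
    have h5 : n ^ k * 2 ≤ 8 ^ n := by
      calc n ^ k * 2 ≤ (2 ^ L) ^ k * 2 := Nat.mul_le_mul_right _ (Nat.pow_le_pow_left hL _)
        _ = 2 ^ (L * k + 1) := by rw [← pow_mul, pow_succ]
        _ ≤ 2 ^ (3 * n) := Nat.pow_le_pow_right (by norm_num) hk
        _ = 8 ^ n := by rw [pow_mul]; norm_num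
    have h6 : (univ.biUnion B1).card * 2 * (8 ^ n) ≤ 2 ^ (n * n) * 8 ^ n := by
      calc (univ.biUnion B1).card * 2 * 8 ^ n
          ≤ (∑ φ : Fin k → Fin n, (B1 φ).card) * 2 * 8 ^ n := by gcongr
        _ = ((∑ φ : Fin k → Fin n, (B1 φ).card) * 8 ^ n) * 2 := by ring
        _ ≤ (n ^ k * 2 ^ (n * n)) * 2 := by gcongr
        _ = (n ^ k * 2) * 2 ^ (n * n) := by ring
        _ ≤ 8 ^ n * 2 ^ (n * n) := by gcongr
        _ = _ := by ring
    exact Nat.le_of_mul_le_mul_right h6 (by positivity)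
  have h3 : (univ.biUnion B2).card * 2 ^ s ≤ 2 ^ (n * n) := by
    have h3 : (univ.biUnion B2).card ≤ ∑ ψ : Fin s → Fin n, (B2 ψ).card :=
      Finset.card_biUnion_le
    have h4 : (∑ ψ : Fin s → Fin n, (B2 ψ).card) * 2 ^ ((L + 1) * s) ≤ n ^ s * 2 ^ (n * n) := by
      rw [Finset.sum_mul]
      calc ∑ ψ : Fin s → Fin n, (B2 ψ).card * 2 ^ ((L + 1) * s)
            ≤ ∑ _ψ : Fin s → Fin n, 2 ^ (n * n) :=
            Finset.sum_le_sum fun ψ _ => hB2 ψ
        _ = n ^ s * 2 ^ (n * n) := by
            rw [Finset.sum_const, Finset.card_univ, Fintype.card_fun, Fintype.card_fin,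
              Fintype.card_fin, smul_eq_mul]
    have h5 : n ^ s * 2 ^ s ≤ 2 ^ ((L + 1) * s) := by
      calc n ^ s * 2 ^ s ≤ (2 ^ L) ^ s * 2 ^ s :=
            Nat.mul_le_mul_right _ (Nat.pow_le_pow_left hL _)
        _ = 2 ^ ((L + 1) * s) := by rw [← pow_mul, ← pow_add]; congr 1; ring
    have h6 : (univ.biUnion B2).card * 2 ^ s * (2 ^ ((L + 1) * s))
        ≤ 2 ^ (n * n) * 2 ^ ((L + 1) * s) := by
      calc (univ.biUnion B2).card * 2 ^ s * 2 ^ ((L + 1) * s)
          ≤ (∑ ψ : Fin s → Fin n, (B2 ψ).card) * 2 ^ s * 2 ^ ((L + 1) * s) := by gcongr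
        _ = ((∑ ψ : Fin s → Fin n, (B2 ψ).card) * 2 ^ ((L + 1) * s)) * 2 ^ s := by ring
        _ ≤ (n ^ s * 2 ^ (n * n)) * 2 ^ s := by gcongr
        _ = (n ^ s * 2 ^ s) * 2 ^ (n * n) := by ring
        _ ≤ 2 ^ ((L + 1) * s) * 2 ^ (n * n) := by gcongr
        _ = _ := by ring
    exact Nat.le_of_mul_le_mul_right h6 (by positivity)
  have h4 : 4 ≤ 2 ^ s := by
    calc 4 = 2 ^ 2 := by norm_num
      _ ≤ 2 ^ s := Nat.pow_le_pow_right (by norm_num) (by omega)
  have h5 : (univ.biUnion B2).card * 4 ≤ 2 ^ (n * n) :=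
    le_trans (Nat.mul_le_mul_left _ h4) h3
  have h6 : 0 < 2 ^ (n * n) := by positivity
  omega

end Pool.Agent.Helper12_Mader
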